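import Pool.Agent.H34.FS.Targets

/-!
# Board hfs_modules, row PML: the pairs of linear forms which are bad modulo a prime power
-/

set_option autoImplicit false

open Finset Pool.Agent.H32.RQ Pool.Agent.H34.FQ

namespace Pool.Agent.H20.HFS

open Pool.Agent.H34.FS

/-! ### Homogeneity and ring homomorphisms -/

private theorem qf_mul {R : Type} [CommRing R] {s : ℕ} (f : Mon s → R) (a : R) (z : Fin s → R) :
    qf f (fun i => a * z i) = a ^ 2 * qf f z := by
  unfold qf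
  rw [mul_sum]
  refine sum_congr rfl fun p _ => ?_
  ring

private theorem dq_mul {R : Type} [CommRing R] {s : ℕ} (f : Mon s → R) (a : R) (z : Fin s → R)
    (j : Fin s) : dq f (fun i => a * z i) j = a * dq f z j := by
  unfold dq
  rw [mul_sum]
  refine sum_congr rfl fun p _ => ?_
  split_ifs <;> ring

private theorem jm_mul {R : Type} [CommRing R] {s : ℕ} (F : Fin 2 → Mon s → R) (a : R)
    (z : Fin s → R) (j l : Fin s) : jm F (fun i => a * z i) j l = a ^ 2 * jm F z j l := by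
  unfold jm
  rw [dq_mul, dq_mul, dq_mul, dq_mul]
  ring

private theorem map_qf {R R' : Type} [CommRing R] [CommRing R'] (φ : R →+* R') {s : ℕ}
    (f : Mon s → R) (z : Fin s → R) :
    φ (qf f z) = qf (fun p => φ (f p)) (fun i => φ (z i)) := by
  unfold qf
  rw [map_sum]
  refine sum_congr rfl fun p _ => ?_
  rw [map_mul, map_mul]

private theorem map_dq {R R' : Type} [CommRing R] [CommRing R'] (φ : R →+* R') {s : ℕ}
    (f : Mon s → R) (z : Fin s → R) (j : Fin s) :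
    φ (dq f z j) = dq (fun p => φ (f p)) (fun i => φ (z i)) j := by
  unfold dq
  rw [map_sum]
  refine sum_congr rfl fun p _ => ?_
  rw [map_mul, map_add]
  congr 2
  · split_ifs
    · rfl
    · exact map_zero φ
  · split_ifs
    · rfl
    · exact map_zero φ

/-! ### Counting -/

private theorem card_ker (p t i : ℕ) [NeZero (p ^ t)] (hp : p.Prime) :
    (univ.filter fun y : ZMod (p ^ t) => (p : ZMod (p ^ t)) ^ i * y = 0).card ≤ p ^ i := by
  have h := IsAddCyclic.card_nsmul_eq_zero_le (α := ZMod (p ^ t)) (n := p ^ i)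
    (pow_pos hp.pos i)
  refine le_trans (card_le_card ?_) h
  intro y hy
  rw [mem_filter] at hy ⊢
  refine ⟨mem_univ _, ?_⟩
  rw [nsmul_eq_mul]
  push_cast
  exact hy.2

private theorem card_fib (r p t j : ℕ) [NeZero (p ^ t)] (hp : p.Prime)
    (T : Finset (Fin 2 → Fin (r + 1) → ZMod (p ^ t)))
    (hT : ∀ L ∈ T, ∀ L' ∈ T, ∀ i k, (p : ZMod (p ^ t)) ^ (2 * j) * (L i k - L' i k) = 0) :
    T.card ≤ (p ^ (2 * j)) ^ (2 * (r + 1)) := by
  rcases T.eq_empty_or_nonempty with rfl | ⟨L₀, hL₀⟩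
  · rw [card_empty]
    exact Nat.zero_le _
  · have h1 : T.card ≤ (Fintype.piFinset fun _ : Fin 2 => Fintype.piFinset fun _ : Fin (r + 1) =>
        univ.filter fun y : ZMod (p ^ t) => (p : ZMod (p ^ t)) ^ (2 * j) * y = 0).card := by
      refine card_le_card_of_injOn (fun L i k => L i k - L₀ i k) ?_ ?_
      · intro L hL
        rw [mem_coe, Fintype.mem_piFinset]
        intro i
        rw [Fintype.mem_piFinset]
        intro k
        rw [mem_filter]
        exact ⟨mem_univ _, hT L hL L₀ hL₀ i k⟩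
      · intro L _ L' _ h
        funext i k
        have h2 := congrFun (congrFun h i) k
        exact sub_left_injective h2
    rw [Fintype.card_piFinset_const, Fintype.card_piFinset_const] at h1
    refine h1.trans ?_
    rw [← pow_mul, mul_comm (r + 1) 2]
    exact Nat.pow_le_pow_left (card_ker p t (2 * j) hp) _

open Classical in
private theorem card_S (hPUV : T_PUV) (hGGE : T_GGE) (r p t j : ℕ) [NeZero (p ^ t)]
    (F : Fin 2 → Mon r → ℤ) (hr : 1 ≤ r) (hp : p.Prime) (u : Fin r → ZMod (p ^ t)) :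
    (univ.filter fun L : Fin 2 → Fin (r + 1) → ZMod (p ^ t) =>
      (∀ i, qf (gg (cm (ZMod (p ^ t)) F) L i) (cv ((p : ZMod (p ^ t)) ^ j) u) = 0) ∧
        ∀ a b, jm (gg (cm (ZMod (p ^ t)) F) L) (cv ((p : ZMod (p ^ t)) ^ j) u) a b = 0).card ≤
      (p ^ (2 * j)) ^ (2 * (r + 1)) * (2 * (p ^ t) ^ (r + 1)) := by
  have h1 := hPUV r p t hr hp
  refine le_trans (card_le_mul_card_image_of_maps_to (f := fun L : Fin 2 → Fin (r + 1) →
      ZMod (p ^ t) =>
      ((fun k : Fin r => dq (gg (cm (ZMod (p ^ t)) F) L 0)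
        (cv ((p : ZMod (p ^ t)) ^ j) u) k.succ),
       (fun k : Fin r => dq (gg (cm (ZMod (p ^ t)) F) L 1)
        (cv ((p : ZMod (p ^ t)) ^ j) u) k.succ)))
    (t := univ.filter fun q : (Fin r → ZMod (p ^ t)) × (Fin r → ZMod (p ^ t)) =>
      ∀ j l, q.1 j * q.2 l = q.1 l * q.2 j) ?_ ((p ^ (2 * j)) ^ (2 * (r + 1))) ?_)
    (Nat.mul_le_mul_left _ (le_trans (card_le_card fun q hq => ?_) h1))
  · intro L hL
    rw [mem_filter] at hL ⊢
    refine ⟨mem_univ _, fun a b => ?_⟩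
    have h2 := hL.2.2 a.succ b.succ
    unfold jm at h2
    exact sub_eq_zero.1 h2
  · intro g _
    refine card_fib r p t j hp _ ?_
    intro L hL L' hL'
    rw [mem_filter, mem_filter] at hL hL'
    have hg : ∀ i (k : Fin r), (p : ZMod (p ^ t)) ^ j * L i k.succ =
        (p : ZMod (p ^ t)) ^ j * L' i k.succ := by
      intro i k
      have h3 : dq (gg (cm (ZMod (p ^ t)) F) L i) (cv ((p : ZMod (p ^ t)) ^ j) u) k.succ =
          dq (gg (cm (ZMod (p ^ t)) F) L' i) (cv ((p : ZMod (p ^ t)) ^ j) u) k.succ := by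
        have h4 := hL.2.trans hL'.2.symm
        rw [Prod.mk.injEq] at h4
        fin_cases i
        · exact congrFun h4.1 k
        · exact congrFun h4.2 k
      unfold gg at h3
      rw [(hGGE _ r _ _ _ u).2.1 k, (hGGE _ r _ _ _ u).2.1 k] at h3
      exact add_left_cancel h3
    have h0 : ∀ i, ((p : ZMod (p ^ t)) ^ j) * ((p : ZMod (p ^ t)) ^ j * L i 0) =
        ((p : ZMod (p ^ t)) ^ j) * ((p : ZMod (p ^ t)) ^ j * L' i 0) := by
      intro i
      have h3 := (hL.1.2.1 i).trans (hL'.1.2.1 i).symm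
      unfold gg at h3
      rw [(hGGE _ r _ _ _ u).1, (hGGE _ r _ _ _ u).1] at h3
      have h4 := add_left_cancel h3
      rw [Fin.sum_univ_succ, Fin.sum_univ_succ, mul_add, mul_add, mul_sum, mul_sum] at h4
      have h5 : ∑ k : Fin r, (p : ZMod (p ^ t)) ^ j *
          (L i k.succ * cv ((p : ZMod (p ^ t)) ^ j) u k.succ) =
          ∑ k : Fin r, (p : ZMod (p ^ t)) ^ j *
          (L' i k.succ * cv ((p : ZMod (p ^ t)) ^ j) u k.succ) := by
        refine sum_congr rfl fun k _ => ?_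
        rw [← mul_assoc, ← mul_assoc, hg i k]
      rw [h5] at h4
      have h6 := add_right_cancel h4
      have h7 : cv ((p : ZMod (p ^ t)) ^ j) u 0 = (p : ZMod (p ^ t)) ^ j := rfl
      rw [h7, mul_comm (L i 0), mul_comm (L' i 0)] at h6
      exact h6
    intro i k
    rw [two_mul, pow_add, mul_assoc, mul_sub]
    refine Fin.cases ?_ (fun k => ?_) k
    · rw [mul_sub, h0 i, sub_self]
    · rw [hg i k, sub_self, mul_zero]
  · rw [mem_filter] at hq ⊢
    exact hq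

/-! ### Normalisation of the zero -/

private theorem not_dvd (hGGE : T_GGE) (r p t e : ℕ) [NeZero (p ^ t)] (F : Fin 2 → Mon r → ℤ)
    (hp : p.Prime) (he : e ≤ t) (he1 : 1 ≤ e)
    (hN : ∀ x : Fin r → ℤ, (∃ i, ¬ (p : ℤ) ∣ x i) → (∀ i, (p : ℤ) ^ e ∣ qf (F i) x) →
      (∀ a b, (p : ℤ) ^ e ∣ jm F x a b) → False)
    (L : Fin 2 → Fin (r + 1) → ZMod (p ^ t)) (z : Fin (r + 1) → ZMod (p ^ t))
    (hz : ∃ i, IsUnit (z i)) (hq : ∀ i, qf (gg (cm (ZMod (p ^ t)) F) L i) z = 0)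
    (hj : ∀ a b, jm (gg (cm (ZMod (p ^ t)) F) L) z a b = 0) : ¬ p ^ e ∣ (z 0).val := by
  intro hdvd
  have hcv : z = cv (z 0) (fun k => z k.succ) := by
    funext i
    refine Fin.cases ?_ (fun k => ?_) i <;> rfl
  obtain ⟨φ, hφ⟩ : ∃ φ : ZMod (p ^ t) →+* ZMod (p ^ e), φ = φ :=
    ⟨ZMod.castHom (pow_dvd_pow p he) (ZMod (p ^ e)), rfl⟩
  have hφz : ∀ a : ZMod (p ^ t), φ a = ((a.val : ℕ) : ZMod (p ^ e)) := by
    intro a
    conv_lhs => rw [← ZMod.natCast_zmod_val a]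
    rw [map_natCast]
  have hφ0 : φ (z 0) = 0 := by
    rw [hφz, ZMod.natCast_eq_zero_iff]
    exact hdvd
  have hunit : ∀ i, IsUnit (z i) → ¬ p ∣ (z i).val := by
    intro i hi hd
    have h1 : IsUnit (((z i).val : ℕ) : ZMod (p ^ t)) := by
      rw [ZMod.natCast_zmod_val]
      exact hi
    rw [ZMod.isUnit_iff_coprime] at h1
    have h2 : Nat.Coprime (z i).val p :=
      Nat.Coprime.coprime_dvd_right (dvd_pow_self p (by omega)) h1
    exact (Nat.Prime.one_lt hp).ne' (Nat.eq_one_of_dvd_one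
      (h2 ▸ Nat.dvd_gcd hd (dvd_refl p)))
  have hint : ∀ k : Fin r, φ (z k.succ) = ((((z k.succ).val : ℕ) : ℤ) : ZMod (p ^ e)) := by
    intro k
    rw [hφz, Int.cast_natCast]
  have hcast : ∀ n : ℤ, (n : ZMod (p ^ e)) = 0 → (p : ℤ) ^ e ∣ n := by
    intro n hn
    rw [ZMod.intCast_zmod_eq_zero_iff_dvd] at hn
    exact_mod_cast hn
  have hqi : ∀ i, φ (qf (cm (ZMod (p ^ t)) F i) (fun k => z k.succ)) =
      ((qf (F i) (fun k => (((z k.succ).val : ℕ) : ℤ)) : ℤ) : ZMod (p ^ e)) := by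
    intro i
    have h1 := map_qf (Int.castRingHom (ZMod (p ^ e))) (F i)
      (fun k => (((z k.succ).val : ℕ) : ℤ))
    rw [eq_intCast] at h1
    rw [h1, map_qf]
    congr 1
    · funext q
      exact map_intCast φ _
    · funext k
      exact hint k
  have hdi : ∀ i k, φ (dq (cm (ZMod (p ^ t)) F i) (fun k => z k.succ) k) =
      ((dq (F i) (fun k => (((z k.succ).val : ℕ) : ℤ)) k : ℤ) : ZMod (p ^ e)) := by
    intro i k
    have h1 := map_dq (Int.castRingHom (ZMod (p ^ e))) (F i)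
      (fun k => (((z k.succ).val : ℕ) : ℤ)) k
    rw [eq_intCast] at h1
    rw [h1, map_dq]
    congr 1
    · funext q
      exact map_intCast φ _
    · funext k
      exact hint k
  refine hN (fun k => (((z k.succ).val : ℕ) : ℤ)) ?_ ?_ ?_
  · obtain ⟨i, hi⟩ := hz
    revert hi
    refine Fin.cases (fun hi => ?_) (fun k hi => ?_) i
    · exact absurd (dvd_trans (dvd_pow_self p (by omega)) hdvd) (hunit 0 hi)
    · refine ⟨k, fun h => hunit k.succ hi ?_⟩
      exact_mod_cast h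
  · intro i
    refine hcast _ ?_
    rw [← hqi]
    have h1 := hq i
    rw [hcv] at h1
    unfold gg at h1
    rw [(hGGE _ r _ _ _ _).1] at h1
    have h2 := congrArg φ h1
    rw [map_add, map_mul, hφ0, zero_mul, add_zero, map_zero] at h2
    exact h2
  · intro a b
    refine hcast _ ?_
    have h1 := hj a.succ b.succ
    rw [hcv] at h1
    unfold jm gg at h1
    rw [(hGGE _ r _ _ _ _).2.1, (hGGE _ r _ _ _ _).2.1, (hGGE _ r _ _ _ _).2.1,
      (hGGE _ r _ _ _ _).2.1] at h1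
    have h2 := congrArg φ h1
    rw [map_sub, map_mul, map_mul, map_add, map_add, map_add, map_add, map_mul, map_mul, map_mul,
      map_mul, hφ0, zero_mul, zero_mul, zero_mul, zero_mul, add_zero, add_zero, add_zero,
      add_zero, map_zero, hdi, hdi, hdi, hdi] at h2
    unfold jm
    push_cast
    exact h2

private theorem norm_z (hGGE : T_GGE) (r p t e : ℕ) [NeZero (p ^ t)] (F : Fin 2 → Mon r → ℤ)
    (hp : p.Prime) (he : e ≤ t) (he1 : 1 ≤ e)
    (hN : ∀ x : Fin r → ℤ, (∃ i, ¬ (p : ℤ) ∣ x i) → (∀ i, (p : ℤ) ^ e ∣ qf (F i) x) →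
      (∀ a b, (p : ℤ) ^ e ∣ jm F x a b) → False)
    (L : Fin 2 → Fin (r + 1) → ZMod (p ^ t)) (z : Fin (r + 1) → ZMod (p ^ t))
    (hz : ∃ i, IsUnit (z i)) (hq : ∀ i, qf (gg (cm (ZMod (p ^ t)) F) L i) z = 0)
    (hj : ∀ a b, jm (gg (cm (ZMod (p ^ t)) F) L) z a b = 0) :
    ∃ j < e, ∃ u : Fin r → ZMod (p ^ t),
      (∀ i, qf (gg (cm (ZMod (p ^ t)) F) L i) (cv ((p : ZMod (p ^ t)) ^ j) u) = 0) ∧
        ∀ a b, jm (gg (cm (ZMod (p ^ t)) F) L) (cv ((p : ZMod (p ^ t)) ^ j) u) a b = 0 := by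
  have h1 := not_dvd hGGE r p t e F hp he he1 hN L z hz hq hj
  have h0 : (z 0).val ≠ 0 := fun h => h1 (by rw [h]; exact dvd_zero _)
  obtain ⟨j, w, hw, hjw⟩ := Nat.exists_eq_pow_mul_and_not_dvd h0 p hp.ne_one
  have hje : j < e := by
    by_contra hcon
    push Not at hcon
    apply h1
    rw [hjw]
    exact dvd_mul_of_dvd_left (pow_dvd_pow p hcon) w
  have hwu : IsUnit ((w : ℕ) : ZMod (p ^ t)) := by
    rw [ZMod.isUnit_iff_coprime]
    exact Nat.Coprime.pow_right t ((Nat.Prime.coprime_iff_not_dvd hp).2 hw).symm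
  obtain ⟨v, hv⟩ := hwu.exists_left_inv
  refine ⟨j, hje, fun k => v * z k.succ, ?_⟩
  have hcv : cv ((p : ZMod (p ^ t)) ^ j) (fun k => v * z k.succ) = fun i => v * z i := by
    funext i
    refine Fin.cases ?_ (fun k => ?_) i
    · change (p : ZMod (p ^ t)) ^ j = v * z 0
      rw [← ZMod.natCast_zmod_val (z 0), hjw]
      push_cast
      rw [mul_left_comm, hv, mul_one]
    · rfl
  rw [hcv]
  refine ⟨fun i => ?_, fun a b => ?_⟩
  · rw [qf_mul, hq, mul_zero]
  · rw [jm_mul, hj, mul_zero]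

theorem pf_PML (hNUL : T_NUL) (hPUV : T_PUV) (hGGE : T_GGE) : T_PML := by
  classical
  intro r F p hr hSm hp
  obtain ⟨N₀, hN₀, hNull⟩ := hNUL r F hSm
  obtain ⟨e, he1, hpe⟩ : ∃ e : ℕ, 1 ≤ e ∧ ¬ p ^ e ∣ N₀ := by
    refine ⟨N₀, hN₀, fun h => ?_⟩
    have h1 := Nat.le_of_dvd hN₀ h
    have h2 : N₀ < p ^ N₀ := Nat.lt_pow_self hp.one_lt
    omega
  have hN : ∀ x : Fin r → ℤ, (∃ i, ¬ (p : ℤ) ∣ x i) → (∀ i, (p : ℤ) ^ e ∣ qf (F i) x) →
      (∀ a b, (p : ℤ) ^ e ∣ jm F x a b) → False := fun x h1 h2 h3 =>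
    hpe (hNull p e x hp h1 h2 h3)
  have hp0 : (0 : ℝ) < p := by exact_mod_cast hp.pos
  refine ⟨(p : ℝ) ^ e + 2 * e * ((p : ℝ) ^ (2 * e)) ^ (2 * (r + 1)), by positivity, ?_⟩
  intro t _
  have hq1 : (1 : ℝ) ≤ (p : ℝ) ^ t := one_le_pow₀ (by exact_mod_cast hp.one_le)
  rw [add_mul]
  rcases Nat.lt_or_ge t e with hte | hte
  · have h1 : (univ.filter fun L : Fin 2 → Fin (r + 1) → ZMod (p ^ t) =>
      ∃ z : Fin (r + 1) → ZMod (p ^ t), (∃ i, IsUnit (z i)) ∧
        (∀ i, qf (gg (cm (ZMod (p ^ t)) F) L i) z = 0) ∧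
        ∀ a b, jm (gg (cm (ZMod (p ^ t)) F) L) z a b = 0).card ≤ (p ^ t) ^ (2 * (r + 1)) := by
      refine le_trans (card_le_univ _) ?_
      rw [Fintype.card_fun, Fintype.card_fun, Fintype.card_fin, Fintype.card_fin, ZMod.card,
        ← pow_mul, mul_comm (r + 1) 2]
    have h2 : (((univ.filter fun L : Fin 2 → Fin (r + 1) → ZMod (p ^ t) =>
      ∃ z : Fin (r + 1) → ZMod (p ^ t), (∃ i, IsUnit (z i)) ∧
        (∀ i, qf (gg (cm (ZMod (p ^ t)) F) L i) z = 0) ∧
        ∀ a b, jm (gg (cm (ZMod (p ^ t)) F) L) z a b = 0).card : ℕ) : ℝ) ≤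
        ((p : ℝ) ^ t) ^ (2 * (r + 1)) := by exact_mod_cast h1
    have h3 : (p : ℝ) ^ t ≤ (p : ℝ) ^ e :=
      pow_le_pow_right₀ (by exact_mod_cast hp.one_le) hte.le
    have h4 : (0 : ℝ) ≤ 2 * e * ((p : ℝ) ^ (2 * e)) ^ (2 * (r + 1)) *
      ((p : ℝ) ^ t) ^ (2 * (r + 1)) := by positivity
    refine le_trans (mul_le_mul h2 h3 (by positivity) (by positivity)) ?_
    rw [mul_comm]
    linarith
  · have h1 : (univ.filter fun L : Fin 2 → Fin (r + 1) → ZMod (p ^ t) =>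
      ∃ z : Fin (r + 1) → ZMod (p ^ t), (∃ i, IsUnit (z i)) ∧
        (∀ i, qf (gg (cm (ZMod (p ^ t)) F) L i) z = 0) ∧
        ∀ a b, jm (gg (cm (ZMod (p ^ t)) F) L) z a b = 0).card ≤
        ∑ j ∈ range e, ∑ _u : Fin r → ZMod (p ^ t),
          (p ^ (2 * j)) ^ (2 * (r + 1)) * (2 * (p ^ t) ^ (r + 1)) := by
      refine le_trans (card_le_card (t := (range e).biUnion fun j =>
        (univ : Finset (Fin r → ZMod (p ^ t))).biUnion fun u =>
          univ.filter fun L : Fin 2 → Fin (r + 1) → ZMod (p ^ t) =>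
            (∀ i, qf (gg (cm (ZMod (p ^ t)) F) L i) (cv ((p : ZMod (p ^ t)) ^ j) u) = 0) ∧
            ∀ a b, jm (gg (cm (ZMod (p ^ t)) F) L) (cv ((p : ZMod (p ^ t)) ^ j) u) a b = 0)
          ?_) ?_
      · intro L hL
        rw [mem_filter] at hL
        obtain ⟨z, hz, hq, hj⟩ := hL.2
        obtain ⟨j, hje, u, hu1, hu2⟩ := norm_z hGGE r p t e F hp hte he1 hN L z hz hq hj
        rw [mem_biUnion]
        refine ⟨j, mem_range.2 hje, ?_⟩
        rw [mem_biUnion]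
        refine ⟨u, mem_univ _, ?_⟩
        rw [mem_filter]
        exact ⟨mem_univ _, hu1, hu2⟩
      · refine card_biUnion_le.trans (sum_le_sum fun j _ => ?_)
        refine card_biUnion_le.trans (sum_le_sum fun u _ => ?_)
        exact card_S hPUV hGGE r p t j F hr hp u
    have h2 : ∑ j ∈ range e, ∑ _u : Fin r → ZMod (p ^ t),
          (p ^ (2 * j)) ^ (2 * (r + 1)) * (2 * (p ^ t) ^ (r + 1)) ≤
        e * ((p ^ t) ^ r * ((p ^ (2 * e)) ^ (2 * (r + 1)) * (2 * (p ^ t) ^ (r + 1)))) := by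
      refine le_trans (sum_le_card_nsmul _ _
        ((p ^ t) ^ r * ((p ^ (2 * e)) ^ (2 * (r + 1)) * (2 * (p ^ t) ^ (r + 1)))) ?_) ?_
      · intro j hj
        rw [mem_range] at hj
        rw [sum_const, card_univ, Fintype.card_fun, Fintype.card_fin, ZMod.card, smul_eq_mul]
        refine Nat.mul_le_mul_left _ (Nat.mul_le_mul_right _ ?_)
        exact Nat.pow_le_pow_left (Nat.pow_le_pow_right hp.pos (by omega)) _
      · rw [card_range, smul_eq_mul]
    have h3 : (((univ.filter fun L : Fin 2 → Fin (r + 1) → ZMod (p ^ t) =>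
      ∃ z : Fin (r + 1) → ZMod (p ^ t), (∃ i, IsUnit (z i)) ∧
        (∀ i, qf (gg (cm (ZMod (p ^ t)) F) L i) z = 0) ∧
        ∀ a b, jm (gg (cm (ZMod (p ^ t)) F) L) z a b = 0).card : ℕ) : ℝ) ≤
        e * (((p : ℝ) ^ t) ^ r * (((p : ℝ) ^ (2 * e)) ^ (2 * (r + 1)) *
          (2 * ((p : ℝ) ^ t) ^ (r + 1)))) := by exact_mod_cast h1.trans h2
    have h4 : (0 : ℝ) ≤ (p : ℝ) ^ e * ((p : ℝ) ^ t) ^ (2 * (r + 1)) := by positivity
    refine le_trans (mul_le_mul_of_nonneg_right h3 (by positivity)) ?_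
    have h5 : e * (((p : ℝ) ^ t) ^ r * (((p : ℝ) ^ (2 * e)) ^ (2 * (r + 1)) *
          (2 * ((p : ℝ) ^ t) ^ (r + 1)))) * (p : ℝ) ^ t =
        2 * e * ((p : ℝ) ^ (2 * e)) ^ (2 * (r + 1)) * ((p : ℝ) ^ t) ^ (2 * (r + 1)) := by
      rw [show 2 * (r + 1) = r + (r + 1) + 1 by ring]
      rw [pow_succ ((p : ℝ) ^ t) (r + (r + 1)), pow_add ((p : ℝ) ^ t) r (r + 1)]
      ring
    rw [h5]
    linarith

end Pool.Agent.H20.HFS
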